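import Pool.Agent.H37.CTN.Stmts

/-!
Row N49 of the board `ctn`: the conductor of the covers, and the transvections in the group
-/

set_option autoImplicit false

namespace Pool.CND

open Finset Polynomial

section mats

variable {F : Type} [Field F] {r m : ℕ}

/-- the shape of the elements of the wild group -/
structure N49W (g : Matrix (Fin (r + m + 1)) (Fin (r + m + 1)) F) : Prop where
  z : g 0 0 = 1
  l : ∀ i j : Fin (r + m + 1), j.val ≤ r → i ≠ 0 → g i j = if i = j then 1 else 0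
  u : ∀ i j : Fin (r + m + 1), r < i.val → g i j = if i = j then 1 else 0

theorem n49_mul1 {g h : Matrix (Fin (r + m + 1)) (Fin (r + m + 1)) F} (hg : N49W g)
    (hh : N49W h) (j : Fin (r + m + 1)) (hj : j ≠ 0) (hjr : j.val ≤ r) :
    (g * h) 0 j = g 0 j + h 0 j := by
  rw [Matrix.mul_apply, Fintype.sum_eq_add 0 j hj.symm, hg.z, one_mul, hh.l j j hjr hj,
    if_pos rfl, mul_one, add_comm]
  rintro x ⟨hx0, hxj⟩
  rw [hh.l x j hjr hx0, if_neg hxj, mul_zero]

theorem n49_mul2 {g h : Matrix (Fin (r + m + 1)) (Fin (r + m + 1)) F} (hg : N49W g)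
    (hh : N49W h) (i j : Fin (r + m + 1)) (hi : i ≠ 0) (hir : i.val ≤ r) (hjr : r < j.val) :
    (g * h) i j = g i j + h i j := by
  have hij : i ≠ j := by
    rintro rfl
    omega
  rw [Matrix.mul_apply, Fintype.sum_eq_add i j hij, hg.l i i hir hi, if_pos rfl, one_mul,
    hh.u j j hjr, if_pos rfl, mul_one, add_comm]
  rintro x ⟨hxi, hxj⟩
  rcases Nat.lt_or_ge r x.val with h1 | h1
  · rw [hh.u x j h1, if_neg hxj, mul_zero]
  · rw [hg.l i x h1 hi, if_neg hxi.symm, zero_mul]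

theorem n49_mul3 {g h : Matrix (Fin (r + m + 1)) (Fin (r + m + 1)) F} (hg : N49W g)
    (hh : N49W h) (hg0 : ∀ l : Fin (r + m + 1), l ≠ 0 → l.val ≤ r → g 0 l = 0)
    (j : Fin (r + m + 1)) (hjr : r < j.val) : (g * h) 0 j = g 0 j + h 0 j := by
  have hj : (0 : Fin (r + m + 1)) ≠ j := by
    rintro rfl
    simp at hjr
  rw [Matrix.mul_apply, Fintype.sum_eq_add 0 j hj, hg.z, one_mul, hh.u j j hjr, if_pos rfl,
    mul_one, add_comm]
  rintro x ⟨hx0, hxj⟩
  rcases Nat.lt_or_ge r x.val with h1 | h1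
  · rw [hh.u x j h1, if_neg hxj, mul_zero]
  · rw [hg0 x hx0 h1, zero_mul]

theorem n49_low (l : Fin (r + m + 1)) (hl : l.val ≤ r) : lowi m (⟨l.val, by omega⟩ : Fin (r + 1)) = l :=
  Fin.ext rfl

theorem n49_top (l : Fin (r + m + 1)) (hl : r < l.val) :
    topi r (⟨l.val - (r + 1), by omega⟩ : Fin m) = l := by
  apply Fin.ext
  show r + 1 + (l.val - (r + 1)) = l.val
  omega

theorem n49_low0 {i : Fin (r + 1)} (hi : i ≠ 0) : lowi m i ≠ 0 := by
  intro h
  apply hi
  apply Fin.ext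
  have h1 : (lowi m i).val = 0 := by
    rw [h]
    rfl
  exact h1

/-- the index set of the additive coordinates -/
abbrev N49I (r m : ℕ) : Type :=
  {i : Fin (r + 1) // i ≠ 0} ⊕ ({i : Fin (r + 1) // i ≠ 0} × Fin m)

/-- the additive coordinates -/
def n49c (g : Matrix (Fin (r + m + 1)) (Fin (r + m + 1)) F) : N49I r m → F
  | Sum.inl i => g 0 (lowi m i.1)
  | Sum.inr x => g (lowi m x.1.1) (topi r x.2)

theorem n49c_mul {g h : Matrix (Fin (r + m + 1)) (Fin (r + m + 1)) F} (hg : N49W g)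
    (hh : N49W h) : n49c (g * h) = n49c g + n49c h := by
  funext x
  rcases x with i | ⟨i, j⟩
  · exact n49_mul1 hg hh _ (n49_low0 i.2) (Nat.lt_succ_iff.1 i.1.2)
  · refine n49_mul2 hg hh _ _ (n49_low0 i.2) (Nat.lt_succ_iff.1 i.1.2) ?_
    show r < r + 1 + j.val
    omega

theorem n49c_row {g : Matrix (Fin (r + m + 1)) (Fin (r + m + 1)) F} (hg : n49c g = 0)
    (l : Fin (r + m + 1)) (hl : l ≠ 0) (hlr : l.val ≤ r) : g 0 l = 0 := by
  have h1 : (⟨l.val, by omega⟩ : Fin (r + 1)) ≠ 0 := by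
    intro h
    have h3 : l.val = 0 := congrArg (fun y : Fin (r + 1) => y.val) h
    exact hl (Fin.ext h3)
  have h2 := congrFun hg (Sum.inl ⟨⟨l.val, by omega⟩, h1⟩)
  exact h2

theorem n49c_blk {g : Matrix (Fin (r + m + 1)) (Fin (r + m + 1)) F} (hg : n49c g = 0)
    (i j : Fin (r + m + 1)) (hi : i ≠ 0) (hir : i.val ≤ r) (hjr : r < j.val) : g i j = 0 := by
  have h1 : (⟨i.val, by omega⟩ : Fin (r + 1)) ≠ 0 := by
    intro h
    have h3 : i.val = 0 := congrArg (fun y : Fin (r + 1) => y.val) h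
    exact hi (Fin.ext h3)
  have h2 := congrFun hg (Sum.inr (⟨⟨i.val, by omega⟩, h1⟩, ⟨j.val - (r + 1), by omega⟩))
  have h3 : g (lowi m ⟨i.val, by omega⟩) (topi r (⟨j.val - (r + 1), by omega⟩ : Fin m)) = 0 := h2
  rw [n49_low i hir, n49_top j hjr] at h3
  exact h3

/-- two matrices of this shape with zero coordinates and the same last part of the first row -/
theorem n49_ext {g h : Matrix (Fin (r + m + 1)) (Fin (r + m + 1)) F} (hg : N49W g)
    (hgc : n49c g = 0) (hh : ∀ i j : Fin (r + m + 1), i ≠ 0 → h i j = if i = j then 1 else 0)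
    (hh0 : h 0 0 = 1) (hhr : ∀ j : Fin (r + m + 1), j ≠ 0 → j.val ≤ r → h 0 j = 0)
    (hc : ∀ j : Fin m, g 0 (topi r j) = h 0 (topi r j)) : g = h := by
  ext i j
  by_cases hi : i = 0
  · subst hi
    by_cases hj : j = 0
    · rw [hj, hg.z, hh0]
    · rcases Nat.lt_or_ge r j.val with h1 | h1
      · have h2 := hc ⟨j.val - (r + 1), by omega⟩
        rw [n49_top j h1] at h2
        exact h2
      · rw [n49c_row hgc j hj h1, hhr j hj h1]
  · rw [hh i j hi]
    rcases Nat.lt_or_ge r j.val with h1 | h1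
    · rcases Nat.lt_or_ge r i.val with h2 | h2
      · exact hg.u i j h2
      · rw [n49c_blk hgc i j hi h2 h1, if_neg]
        rintro rfl
        omega
    · exact hg.l i j h1 hi

end mats

theorem n49_num (n A B q Q : ℕ) (w : ℕ) (hw : 0 < w) (hq : 2 ≤ q) (hQ : 2 ≤ Q) (hn : 0 < n)
    (hA : (q - 1) * A = n) (hB : (Q - 1) * B = n) :
    (w : ℚ) * ((q * A + B : ℕ) : ℚ) / ((n * w : ℕ) : ℚ) =
      1 + 1 / ((q : ℚ) - 1) + 1 / ((Q : ℚ) - 1) := by
  have h1 : ((q : ℚ) - 1) * A = n := by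
    rw [← hA]
    push_cast [Nat.cast_sub (by omega : 1 ≤ q)]
    ring
  have h2 : ((Q : ℚ) - 1) * B = n := by
    rw [← hB]
    push_cast [Nat.cast_sub (by omega : 1 ≤ Q)]
    ring
  have hq' : (0 : ℚ) < (q : ℚ) - 1 := by
    have : (2 : ℚ) ≤ q := by exact_mod_cast hq
    linarith
  have hQ' : (0 : ℚ) < (Q : ℚ) - 1 := by
    have : (2 : ℚ) ≤ Q := by exact_mod_cast hQ
    linarith
  have hw' : (0 : ℚ) < w := by exact_mod_cast hw
  have hn' : (0 : ℚ) < n := by exact_mod_cast hn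
  have hA' : (A : ℚ) = n / ((q : ℚ) - 1) := by
    rw [eq_div_iff hq'.ne']
    linarith
  have hB' : (B : ℚ) = n / ((Q : ℚ) - 1) := by
    rw [eq_div_iff hQ'.ne']
    linarith
  push_cast
  rw [hA', hB']
  field_simp
  ring

theorem n49_thm (hN42 : S_N42) (hN44 : S_N44) (hN45 : S_N45) (hN47 : S_N47) (hN48 : S_N48)
    (hSMB : S_SMB) (hUM3 : S_UM3) (hINF : S_INF) (hTOT : S_TOT) (hCNV : S_CNV)
    (hWLD : S_WLD) : S_N49 := by
  intro p k F L _ _ _ _ _ _ f q r m κ t X G₀ ρ P hp hchar hf hq hF hm hκ hR hC hO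
  have : Fact p.Prime := ⟨hp⟩
  have hp2 := hp.two_le
  have hpq : p ≤ q := by
    rw [hq]
    calc p = p ^ 1 := (pow_one p).symm
      _ ≤ p ^ f := Nat.pow_le_pow_right hp.pos hf
  have hq2 : 2 ≤ q := hp2.trans hpq
  have hqz : (2 : ℤ) ≤ (q : ℤ) := by exact_mod_cast hq2
  have hQ2 : 2 ≤ q ^ m := by
    calc 2 ≤ q := hq2
      _ = q ^ 1 := (pow_one q).symm
      _ ≤ q ^ m := Nat.pow_le_pow_right (by omega) hm
  have : Finite F := Nat.finite_of_card_ne_zero (by rw [hF]; omega)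
  let _ : Fintype F := Fintype.ofFinite F
  have : Finite (Matrix.SpecialLinearGroup (Fin (r + m + 1)) F) :=
    inferInstanceAs (Finite {A : Matrix (Fin (r + m + 1)) (Fin (r + m + 1)) F // A.det = 1})
  have : Finite G₀ := inferInstance
  let _ : Fintype G₀ := Fintype.ofFinite G₀
  have hX0 : X 0 ≠ 0 := by
    intro h
    have h1 := hR.ind (fun j => if j = 0 then 1 else 0) (by
      rw [Finset.sum_eq_single 0]
      · rw [h, mul_zero]
      · intro j _ hj
        simp [cst, hj]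
      · intro h2
        exact absurd (mem_univ 0) h2)
    have h2 := congrFun h1 0
    simp at h2
  obtain ⟨W, I, hW, hI, hWI, -, n, hn, hcard⟩ := hWLD p k L G₀ P ρ hp hchar hC.cov.inj
  have hWm : ∀ g : G₀, g ∈ W ↔ g ∈ ram P ρ 1 := by
    intro g
    rw [← hW]
    rfl
  have hWs : ∀ g ∈ W, N49W (r := r) (m := m) g.1.1 := by
    intro g hg
    obtain ⟨h1, h2, h3⟩ := hN42 p k F L f q r m κ t X G₀ ρ P hp hchar hf hq hF hm hR hC hO g
      ((hWm g).1 hg)
    exact ⟨h1, h2, h3⟩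
  have hmulW : ∀ g ∈ W, ∀ h ∈ W, n49c (r := r) (m := m) (g * h).1.1 =
      n49c g.1.1 + n49c h.1.1 := by
    intro g hg h hh
    exact n49c_mul (hWs g hg) (hWs h hh)
  have hone : n49c (r := r) (m := m) ((1 : G₀) : Matrix.SpecialLinearGroup (Fin (r + m + 1)) F).1 =
      (0 : N49I r m → F) := by
    have h1 := hmulW 1 W.one_mem 1 W.one_mem
    rw [one_mul] at h1
    exact (left_eq_add.1 h1)
  let M : Subgroup G₀ :=
    { carrier := {g | g ∈ W ∧ n49c (r := r) (m := m) g.1.1 = 0}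
      mul_mem' := fun {g h} hg hh =>
        ⟨W.mul_mem hg.1 hh.1, by rw [hmulW g hg.1 h hh.1, hg.2, hh.2, add_zero]⟩
      one_mem' := ⟨W.one_mem, hone⟩
      inv_mem' := fun {g} hg => by
        have h1 := hmulW g hg.1 g⁻¹ (W.inv_mem hg.1)
        rw [mul_inv_cancel, hone, hg.2, zero_add] at h1
        exact ⟨W.inv_mem hg.1, h1.symm⟩ }
  have hMm : ∀ g : G₀, g ∈ M ↔ g ∈ W ∧ n49c (r := r) (m := m) g.1.1 = 0 := fun g => Iff.rfl
  have hMW : M ≤ W := fun g hg => hg.1
  have hMn : ∀ g ∈ W, ∀ x ∈ M, g * x * g⁻¹ ∈ M := by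
    intro g hg x hx
    have h1 := hmulW g hg g⁻¹ (W.inv_mem hg)
    rw [mul_inv_cancel, hone] at h1
    refine ⟨W.mul_mem (W.mul_mem hg hx.1) (W.inv_mem hg), ?_⟩
    rw [hmulW _ (W.mul_mem hg hx.1) _ (W.inv_mem hg), hmulW g hg x hx.1, hx.2, add_zero, ← h1]
  -- action on the roots
  have act0 : ∀ g ∈ W, ρ g (X 0) = X 0 := by
    intro g hg
    rw [hC.act g 0, Finset.sum_eq_single 0]
    · rw [(hWs g hg).z]
      simp [cst]
    · intro j _ hj
      rw [(hWs g hg).l j 0 (Nat.zero_le _) hj, if_neg hj]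
      simp [cst]
    · intro h
      exact absurd (mem_univ 0) h
  have act1 : ∀ g ∈ W, ∀ i : Fin (r + 1), i ≠ 0 → ρ g (X (lowi m i)) =
      X (lowi m i) + cst k F L (g.1.1 0 (lowi m i)) * X 0 := by
    intro g hg i hi
    have hi0 := n49_low0 (m := m) hi
    rw [hC.act g (lowi m i), Fintype.sum_eq_add 0 (lowi m i) hi0.symm]
    · rw [(hWs g hg).l (lowi m i) (lowi m i) (Nat.lt_succ_iff.1 i.2) hi0, if_pos rfl, add_comm]
      simp [cst]
    · rintro x ⟨hx0, hxi⟩
      rw [(hWs g hg).l x (lowi m i) (Nat.lt_succ_iff.1 i.2) hx0, if_neg hxi]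
      simp [cst]
  -- the functions
  obtain ⟨-, α, R, hα⟩ := hN44 p k F L f q r m κ t X P hp hchar hf hq hF hm hR hO
  obtain ⟨h47a, h47b⟩ := hN47 p k F L f q r m κ t X α R P hp hchar hf hq hF hm hκ hR hO hα
  have h48 := hN48 p k F L f q r m κ t X G₀ ρ α R P hp hchar hf hq hF hm hκ hR hC hO hα
  have h45 : ∀ g ∈ W, _ := fun g hg => hN45 p k F L f q r m κ t X G₀ ρ α R g hp hchar hf hq hF hm
    hR hC hα (hWs g hg).z (hWs g hg).l (hWs g hg).u
  choose τ hτ using h47a
  have hordX0 : 0 < P.ord (X 0) := by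
    by_contra hcon
    rw [not_lt] at hcon
    have h1 : ((q : ℤ) - 1) * P.ord (X 0) ≤ 0 :=
      mul_nonpos_of_nonneg_of_nonpos (by linarith) hcon
    have h2 := hO.small
    have h3 := hO.neg
    linarith
  obtain ⟨B, hB⟩ : ∃ B : ℕ, (B : ℤ) = P.ord (X 0) := ⟨(P.ord (X 0)).toNat, by omega⟩
  have hS := hSMB p k F L G₀ (N49I r m) f q B P ρ W M (fun g => n49c (r := r) (m := m) g.1.1)
    (fun x => match x with
      | Sum.inl i => (X (lowi m i.1) - algebraMap k L (τ i.1 i.2)) / X 0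
      | Sum.inr y => α y.1.1 (X (topi r y.2)))
    hp hchar hf hq hF hC.cov.inj (fun g hg => (hWm g).1 hg) hmulW hMm
    (by
      rintro g hg (i | ⟨i, j⟩)
      · show ρ g ((X (lowi m i.1) - algebraMap k L (τ i.1 i.2)) / X 0) =
          (X (lowi m i.1) - algebraMap k L (τ i.1 i.2)) / X 0 +
            cst k F L (g.1.1 0 (lowi m i.1))
        rw [map_div₀, map_sub, act0 g hg, act1 g hg i.1 i.2, AlgEquiv.commutes]
        field_simp
        ring
      · exact (h45 g hg).1 i.1 i.2 j)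
    (by
      rintro (i | ⟨i, j⟩)
      · rw [hB]
        exact hτ i.1 i.2 _ rfl
      · rw [hB]
        exact h47b i.1 i.2 j _ rfl)
  have hWpos : 0 < Nat.card W := Nat.card_pos
  have hMpos : 0 < Nat.card M := Nat.card_pos
  have hWz : (0 : ℤ) < (Nat.card W : ℤ) := by exact_mod_cast hWpos
  have hMz : (0 : ℤ) < (Nat.card M : ℤ) := by exact_mod_cast hMpos
  obtain ⟨S, hSd⟩ : ∃ S : ℤ, S = sm (fun g => P.b (ρ g)) {g | g ∈ W ∧ g ∉ M} := ⟨_, rfl⟩
  rw [← hSd] at hS
  have hSB : S < (B : ℤ) := by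
    have h1 : ((Nat.card W : ℤ) - Nat.card M) * B < (Nat.card W : ℤ) * B := by
      have h2 : 0 < (Nat.card M : ℤ) * B := mul_pos hMz (by rw [hB]; exact hordX0)
      linarith
    exact lt_of_mul_lt_mul_left (hS.trans_lt h1) hWz.le
  -- orders
  have hIo : P.ord t = -(Nat.card I : ℤ) := hINF k L G₀ ρ t P I hC.cov hO.neg hI
  have hfix : ∀ g ∈ W, Fixes P (ρ g) := fun g hg => ((hWm g).1 hg).1
  have hn0 : 0 < n := Nat.pos_of_ne_zero fun h => hn (h ▸ dvd_zero p)
  have hnz : (0 : ℤ) < n := by exact_mod_cast hn0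
  have hIn : P.ord t = -((n : ℤ) * Nat.card W) := by
    rw [hIo, hcard]
    push_cast
    ring
  obtain ⟨A0, hA0⟩ := hTOT k L G₀ P ρ W hC.cov.inj hfix (X 0) hX0 act0
  have hA1 : ((q : ℤ) - 1) * A0 = n := by
    have h1 := hO.small
    rw [hA0, hIn] at h1
    have h2 : (Nat.card W : ℤ) * (((q : ℤ) - 1) * A0) = (Nat.card W : ℤ) * n := by linarith
    exact mul_left_cancel₀ hWz.ne' h2
  have hA2 : 0 < A0 := by
    by_contra hcon
    rw [not_lt] at hcon
    have h1 : ((q : ℤ) - 1) * A0 ≤ 0 := mul_nonpos_of_nonneg_of_nonpos (by linarith) hcon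
    linarith
  obtain ⟨A, rfl⟩ := Int.eq_ofNat_of_zero_le hA2.le
  have hQz : (2 : ℤ) ≤ (q : ℤ) ^ m := by exact_mod_cast hQ2
  -- the number `B'`
  obtain ⟨B0, hB0⟩ : ∃ B0 : ℤ, ((q : ℤ) ^ m - 1) * B0 = n := by
    have ha : (fun _ : Fin m => (1 : F)) ≠ 0 := by
      intro h
      exact one_ne_zero (congrFun h ⟨0, by omega⟩)
    obtain ⟨g₀, g₁, -, h1, h2, h3, h4, -, -⟩ := h48 _ ha
    obtain ⟨c, hc⟩ := hTOT k L G₀ P ρ W hC.cov.inj hfix g₀ h1 (fun g hg => h2 g ((hWm g).1 hg))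
    refine ⟨-(c + q * A), ?_⟩
    rw [h3, hA0] at hc
    have h5 : P.ord (R (∑ i, cst k F L ((1 : F)) * X (topi r i))) =
        (Nat.card W : ℤ) * (c + q * A) := by linarith
    rw [h5, hIn] at h4
    have h6 : (Nat.card W : ℤ) * (((q : ℤ) ^ m - 1) * -(c + q * A)) = (Nat.card W : ℤ) * n := by
      linarith
    exact mul_left_cancel₀ hWz.ne' h6
  have hB2 : 0 < B0 := by
    by_contra hcon
    rw [not_lt] at hcon
    have h1 : ((q : ℤ) ^ m - 1) * B0 ≤ 0 := mul_nonpos_of_nonneg_of_nonpos (by linarith) hcon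
    linarith
  obtain ⟨B', rfl⟩ := Int.eq_ofNat_of_zero_le hB2.le
  have hApos : 0 < A := by exact_mod_cast hA2
  have hBpos : 0 < B' := by exact_mod_cast hB2
  have hpB : ¬ p ∣ B' := by
    intro h
    apply hn
    have h1 : (p : ℤ) ∣ (n : ℤ) := by
      rw [← hB0]
      exact Dvd.dvd.mul_left (by exact_mod_cast h) _
    exact_mod_cast h1
  have hpD : ¬ p ∣ q * A + B' := by
    intro h
    apply hpB
    have h1 : p ∣ q * A := by
      rw [hq]
      exact Dvd.dvd.mul_right (dvd_pow_self p (by omega)) _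
    exact (Nat.dvd_add_right h1).1 h
  have hBA : (B : ℤ) = A * Nat.card W := by
    rw [hB, hA0]
    ring
  have hSA : S < A * Nat.card W := by
    rw [← hBA]
    exact hSB
  have hpz : (2 : ℤ) ≤ (p : ℤ) := by exact_mod_cast hp2
  have hpqz : (p : ℤ) ≤ q := by exact_mod_cast hpq
  have hAW : 0 < (A : ℤ) * Nat.card W := mul_pos (by exact_mod_cast hApos) hWz
  have hD : (q : ℤ) * (A * Nat.card W) ≤ ((q * A + B' : ℕ) : ℤ) * Nat.card W := by
    have h1 : 0 < (B' : ℤ) * Nat.card W := mul_pos (by exact_mod_cast hBpos) hWz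
    push_cast
    linarith
  obtain ⟨hUa, l, hUl, hUU⟩ := hUM3 p k F L G₀ f q m (q * A + B') P ρ W M
    (fun g j => g.1.1 0 (topi r j)) (fun j => α 0 (X (topi r j))) hp hchar hf hq hF hm hC.cov.inj
    (fun g hg => (hWm g).1 hg) hMW hMn
    (by
      intro g hg h hh
      funext j
      refine n49_mul3 (hWs g hg.1) (hWs h hh.1) (n49c_row hg.2) (topi r j) ?_
      show r < r + 1 + j.val
      omega)
    (by
      intro g hg hgc
      apply Subtype.ext
      apply Subtype.ext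
      refine n49_ext (hWs g hg.1) hg.2 (fun i j _ => ?_) ?_ (fun j hj _ => ?_) (fun j => ?_)
      · exact Matrix.one_apply
      · exact Matrix.one_apply_eq 0
      · exact Matrix.one_apply_ne hj.symm
      · rw [show g.1.1 0 (topi r j) = 0 from congrFun hgc j]
        refine (Matrix.one_apply_ne ?_).symm
        intro h
        have h1 : (0 : ℕ) = r + 1 + j.val := congrArg (fun y : Fin (r + m + 1) => y.val) h
        omega)
    (by
      intro g hg j
      refine (h45 g hg.1).2.1 (fun i hi => ?_) j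
      exact n49c_row hg.2 (lowi m i) (n49_low0 hi) (Nat.lt_succ_iff.1 i.2))
    (by omega) hpD
    (by
      intro a ha
      obtain ⟨g₀, g₁, h0, h1, h2, h3, h4, -, h6⟩ := h48 a ha
      have h7 : P.ord (R (∑ i, cst k F L (a i) * X (topi r i))) = -((B' : ℤ) * Nat.card W) := by
        rw [hIn, ← hB0] at h4
        have h8 : ((q : ℤ) ^ m - 1) * P.ord (R (∑ i, cst k F L (a i) * X (topi r i))) =
            ((q : ℤ) ^ m - 1) * -((B' : ℤ) * Nat.card W) := by linarith
        exact mul_left_cancel₀ (by linarith) h8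
      have h9 : P.ord g₀ = -(((q * A + B') * Nat.card W : ℕ) : ℤ) := by
        rw [h3, h7, hA0]
        push_cast
        ring
      refine ⟨g₀, g₁, h0, h1, fun w hw => h2 w ((hWm w).1 hw), h9, ?_⟩
      rcases h6 with h6 | h6
      · exact Or.inl h6
      · right
        rw [← hSd, ← h9]
        rw [hIn, ← hA1] at h6
        have h10 : (A : ℤ) * Nat.card W ≤ ((q : ℤ) - 1) * A * Nat.card W := by
          have h11 : 1 * ((A : ℤ) * Nat.card W) ≤ ((q : ℤ) - 1) * ((A : ℤ) * Nat.card W) :=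
            mul_le_mul_of_nonneg_right (by linarith) hAW.le
          linarith
        linarith)
    (by
      rw [← hSd]
      have h1 : (p : ℤ) * S < (p : ℤ) * (A * Nat.card W) :=
        mul_lt_mul_of_pos_left hSA (by linarith)
      have h2 : (p : ℤ) * (A * Nat.card W) ≤ (q : ℤ) * (A * Nat.card W) :=
        mul_le_mul_of_nonneg_right hpqz hAW.le
      have h3 : 1 * (((q * A + B' : ℕ) : ℤ) * Nat.card W) ≤
          ((p : ℤ) - 1) * (((q * A + B' : ℕ) : ℤ) * Nat.card W) :=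
        mul_le_mul_of_nonneg_right (by linarith) (by positivity)
      linarith)
    (by
      rw [← hSd]
      have h2 : 2 * ((A : ℤ) * Nat.card W) ≤ (q : ℤ) * (A * Nat.card W) :=
        mul_le_mul_of_nonneg_right hqz hAW.le
      linarith)
  refine ⟨?_, ?_⟩
  · intro g hg1 hg2 hg3
    obtain ⟨h, hh, hhc⟩ := hUa (fun j => g.1 0 (topi r j))
    have h1 : h.1 = g := by
      apply Subtype.ext
      exact n49_ext (hWs h hh.1) hh.2 hg1 hg2 hg3 (fun j => congrFun hhc j)
    rw [← h1]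
    exact h.2
  · have h1 := hCNV k L G₀ P ρ W I l hC.cov.inj hW hI hUl
    rw [hUU, hcard] at h1
    have h2 : (q - 1) * A = n := by
      have h3 : (((q - 1) * A : ℕ) : ℤ) = (n : ℤ) := by
        rw [← hA1]
        push_cast [Nat.cast_sub (by omega : 1 ≤ q)]
        ring
      exact_mod_cast h3
    have h4 : (q ^ m - 1) * B' = n := by
      have h3 : (((q ^ m - 1) * B' : ℕ) : ℤ) = (n : ℤ) := by
        rw [← hB0]
        push_cast [Nat.cast_sub (by omega : 1 ≤ q ^ m)]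
        ring
      exact_mod_cast h3
    have h5 := n49_num n A B' q (q ^ m) (Nat.card W) hWpos hq2 hQ2 hn0 h2 h4
    rw [h5] at h1
    push_cast at h1
    exact h1

end Pool.CND
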